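import Pool.Agent.Helper39.FX.Defs
import Pool.Graph.R_seed8.Y791.BC.LegA

/-!
# FX: the assembly ALLC (not a result)
-/

set_option autoImplicit false
set_option linter.unusedSectionVars false

open Polynomial IsDedekindDomain NumberField

namespace Pool.Agent.Helper77.FX.ALLC

open Pool.Agent.TH954 Pool.Agent.Y791.BF Pool.Agent.Helper39.FT Pool.Agent.Helper39.FX
  Pool.Agent.Y791.BC.Leg Pool.Agent.Y791.BS

theorem eval_ne {K k : Type} [Field K] [Field k] (C : Crv K k) {d : K[X]} (hd : d ≠ 0) :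
    eval₂ C.c C.T d ≠ 0 := by
  intro h
  have h1 : ev2 C.c C.T C.α (Polynomial.C d) = 0 := by
    unfold ev2
    simp only [coe_eval₂RingHom, eval₂_C]
    exact h
  have h2 := C.min _ h1
  have h3 : Polynomial.C d ≠ 0 := fun h => hd (Polynomial.C_eq_zero.1 h)
  have h4 := natDegree_le_of_dvd h2 h3
  rw [natDegree_C] at h4
  have := C.pos
  omega

theorem kumC {K k : Type} [Field K] [Field k] [CharZero k] {M : Type} [Field M] [IsAlgClosed M]
    [Algebra k M] (C : Crv K k) (A : SAct k M) : KumC A.fix C := by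
  intro f hf m hm
  obtain ⟨r, hr, g, hg, h⟩ := A.kummer (f := (f : M)) f.2
    (fun h => hf (Subtype.ext h)) hm
  obtain ⟨B, d, hd, hB⟩ := C.gen r
  have hd0 := eval_ne C hd
  have hd0'' : algebraMap k M (eval₂ C.c C.T d) ≠ 0 := (_root_.map_ne_zero _).2 hd0
  have e1 : ev2 C.c C.T C.α (B * Polynomial.C (d ^ (m - 1))) = r * (eval₂ C.c C.T d) ^ m := by
    have h1 : ev2 C.c C.T C.α (Polynomial.C (d ^ (m - 1))) = (eval₂ C.c C.T d) ^ (m - 1) := by
      unfold ev2
      simp only [coe_eval₂RingHom, eval₂_C]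
      rw [eval₂_pow]
    rw [map_mul, h1, ← hB, mul_assoc, ← pow_succ', Nat.sub_add_cancel hm]
  refine ⟨B * Polynomial.C (d ^ (m - 1)), ?_,
    ⟨g / algebraMap k M (eval₂ C.c C.T d), div_mem hg (A.fix.algebraMap_mem _)⟩, ?_⟩
  · rw [e1]
    exact mul_ne_zero hr (pow_ne_zero _ hd0)
  · apply Subtype.ext
    change (f : M) = algebraMap k M (ev2 C.c C.T C.α (B * Polynomial.C (d ^ (m - 1)))) *
      (g / algebraMap k M (eval₂ C.c C.T d)) ^ m
    rw [h, div_pow, e1, map_mul, map_pow]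
    field_simp

theorem allc (hSELN : S_SELN) (hE1 : S_E1) (hE2 : S_E2) : S_ALLC := by
  intro K k _ _ _ _ hessK hessk C M _ _ _ _ A pl hpl x hx hxt
  have hchi : ∀ i : PlF k, CharZero i.Lv := fun i => charZero_compl i.v
  choose q _ hqv using fun i : PlF k => exists_fixPlc A (hpl i)
  have hchF : CharZero A.fix :=
    charZero_of_injective_algebraMap (algebraMap k A.fix).injective
  have hint : ∀ x : A.fix, IsAlgebraic k x → ∃ c, algebraMap k A.fix c = x := by
    intro x hx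
    obtain ⟨w, hw⟩ := alg_range A.j (hx.algHom A.fix.val)
    have hw' : A.j w = (x : M) := hw
    obtain ⟨c, hc⟩ := A.fix_j (z := w) (by rw [hw']; exact x.2)
    refine ⟨c, Subtype.ext ?_⟩
    change algebraMap k M c = (x : M)
    rw [← hw', ← hc, A.j.commutes]
  have hF : KumC A.fix C := kumC C A
  obtain ⟨y, hyt, hy⟩ := hSELN K k hessK C A.fix q hF (⟨x, hx⟩ : A.fix)
    (fun h => hxt (h.algHom A.fix.val))
  obtain ⟨Acl, G1, G2, hc⟩ := hE1 K k hessK C A.fix q hF hint y hyt hy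
  obtain ⟨t, ht0, ht⟩ := hE2 K k hessK C A.fix q y hyt Acl G1 G2 hc
  refine ⟨(t : M), fun h => ht0 (Subtype.ext h), fun i => ?_⟩
  have h := (hqv i t 0).1 (ht i)
  rwa [map_zero] at h

end Pool.Agent.Helper77.FX.ALLC
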