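import Mathlib
import Pool.Agent.Helper39.FX.Defs

set_option autoImplicit false

open Polynomial

namespace Pool.Agent.Helper77.FX.FIN

/-- the product over `S` without `c` -/
noncomputable def B (R : Type) [CommRing R] (S : Finset ℕ) (c : ℕ) : R[X] :=
  ∏ c' ∈ S.erase c, (X - C (c' : R))

section B
variable {R : Type} [CommRing R]

theorem B_monic (S : Finset ℕ) (c : ℕ) : (B R S c).Monic :=
  monic_prod_of_monic _ _ fun _ _ => monic_X_sub_C _

theorem B_natDegree [Nontrivial R] {S : Finset ℕ} {c : ℕ} (hc : c ∈ S) :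
    (B R S c).natDegree = S.card - 1 := by
  unfold B
  rw [natDegree_prod_of_monic _ _ fun _ _ => monic_X_sub_C _]
  simp only [natDegree_X_sub_C, Finset.sum_const, smul_eq_mul, mul_one, Finset.card_erase_of_mem hc]

theorem B_eval_ne {S : Finset ℕ} {c c' : ℕ} (hc : c' ∈ S) (h : c' ≠ c) :
    (B R S c).eval (c' : R) = 0 := by
  unfold B
  rw [eval_prod]
  exact Finset.prod_eq_zero (Finset.mem_erase.2 ⟨h, hc⟩) (by simp)

theorem B_eval_ne_zero [IsDomain R] [CharZero R] {S : Finset ℕ} {c a : ℕ} (ha : a ∉ S.erase c) :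
    (B R S c).eval (a : R) ≠ 0 := by
  unfold B
  rw [eval_prod, Finset.prod_ne_zero_iff]
  intro c' hc'
  simp only [eval_sub, eval_X, eval_C]
  rw [sub_ne_zero]
  intro h
  have := Nat.cast_injective h
  subst this
  exact ha hc'

theorem B_map {R' : Type} [CommRing R'] (f : R →+* R') (S : Finset ℕ) (c : ℕ) :
    (B R S c).map f = B R' S c := by
  unfold B
  rw [Polynomial.map_prod]
  simp

/-- sums of the products -/
theorem sum_eval {S : Finset ℕ} (r : ℕ → R) {c : ℕ} (hc : c ∈ S) :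
    (∑ a ∈ S, C (r a) * B R S a).eval (c : R) = r c * (B R S c).eval (c : R) := by
  rw [eval_finsetSum, Finset.sum_eq_single c]
  · simp
  · intro b _ hb
    rw [eval_mul, B_eval_ne hc (Ne.symm hb), mul_zero]
  · intro h; exact absurd hc h

theorem sum_natDegree [Nontrivial R] (S : Finset ℕ) (r : ℕ → R) :
    (∑ a ∈ S, C (r a) * B R S a).natDegree ≤ S.card - 1 := by
  apply natDegree_sum_le_of_forall_le
  intro a ha
  exact (natDegree_C_mul_le _ _).trans (B_natDegree ha).le

theorem sum_coeff [Nontrivial R] {S : Finset ℕ} {n : ℕ} (hS : S.card = n + 1) (r : ℕ → R) :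
    (∑ a ∈ S, C (r a) * B R S a).coeff n = ∑ a ∈ S, r a := by
  rw [finsetSum_coeff]
  refine Finset.sum_congr rfl fun a ha => ?_
  rw [coeff_C_mul]
  have h := B_natDegree (R := R) ha
  rw [hS] at h
  have h2 := (B_monic (R := R) S a).coeff_natDegree
  rw [h] at h2
  simp at h2
  rw [h2, mul_one]

end B

/-- interpolation -/
theorem interp {L : Type} [Field L] [CharZero L] {S : Finset ℕ} {n : ℕ} (hS : S.card = n + 1)
    {P : L[X]} (hP : P.natDegree ≤ n) :
    P = ∑ a ∈ S, C (P.eval (a : L) / (B L S a).eval (a : L)) * B L S a := by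
  apply Polynomial.eq_of_degrees_lt_of_eval_index_eq (v := fun a : ℕ => (a : L)) S
  · exact fun a _ b _ h => Nat.cast_injective h
  · rw [hS]
    exact lt_of_le_of_lt degree_le_natDegree (by exact_mod_cast Nat.lt_succ_of_le hP)
  · rw [hS]
    refine lt_of_le_of_lt degree_le_natDegree ?_
    have := sum_natDegree S fun a => P.eval (a : L) / (B L S a).eval (a : L)
    rw [hS] at this
    exact_mod_cast Nat.lt_succ_of_le this
  · intro c hc
    have h := sum_eval (fun a => P.eval (a : L) / (B L S a).eval (a : L)) hc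
    rw [h, div_mul_cancel₀]
    exact B_eval_ne_zero (by simp)

section lin
variable {K : Type} [Field K]

/-- any `n + 1` of the polynomials are independent -/
def Indep (n m : ℕ) (g : ℕ → K[X]) : Prop :=
  ∀ S : Finset ℕ, (∀ c ∈ S, c < m) → S.card = n + 1 →
    ∀ w : ℕ → K, ∑ c ∈ S, C (w c) * g c = 0 → ∀ c ∈ S, w c = 0

theorem Indep.ne_zero {n m : ℕ} {g : ℕ → K[X]} (h : Indep n m g) (hm : n + 1 ≤ m) {c : ℕ}
    (hc : c < m) : g c ≠ 0 := by
  classical
  intro h0
  obtain ⟨S, h1, h2, h3⟩ := Finset.exists_subsuperset_card_eq (s := {c}) (t := Finset.range m)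
    (n := n + 1) (by simpa using hc) (by simp) (by simpa using hm)
  have hcS : c ∈ S := h1 (by simp)
  have := h S (fun a ha => Finset.mem_range.1 (h2 ha)) h3 (fun a => if a = c then 1 else 0) (by
    rw [Finset.sum_eq_zero]
    intro a _
    by_cases hac : a = c
    · subst hac; simp [h0]
    · simp [hac]) c hcS
  simp at this

variable {L : Type} [Field L] (ι : K →+* L)

/-- functionals applied to a relation -/
theorem funct {S : Finset ℕ} {g : ℕ → K[X]} (w : ℕ → L) (φ : L → K)
    (hadd : ∀ x y, φ (x + y) = φ x + φ y) (hmul : ∀ a x, φ (x * ι a) = φ x * a)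
    (h : ∑ c ∈ S, C (w c) * (g c).map ι = 0) :
    ∑ c ∈ S, C (φ (w c)) * g c = 0 := by
  have h0 : φ 0 = 0 := by simpa using hadd 0 0
  have hs : ∀ (S : Finset ℕ) (x : ℕ → L), φ (∑ c ∈ S, x c) = ∑ c ∈ S, φ (x c) := by
    classical
    intro S x
    induction S using Finset.induction_on with
    | empty => simpa using h0
    | insert a s ha ih => rw [Finset.sum_insert ha, Finset.sum_insert ha, hadd, ih]
  ext j
  rw [finsetSum_coeff, coeff_zero]
  have hj := congrArg (fun P => φ (P.coeff j)) h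
  simp only [finsetSum_coeff, coeff_zero, coeff_C_mul, coeff_map] at hj
  rw [hs, h0] at hj
  simp only [hmul] at hj
  simpa only [coeff_C_mul] using hj

/-- a functional which does not vanish -/
theorem exists_funct (x : L) (hx : x ≠ 0) : ∃ φ : L → K, (∀ x y, φ (x + y) = φ x + φ y) ∧
    (∀ a x, φ (x * ι a) = φ x * a) ∧ φ x = 1 := by
  let _ : Algebra K L := ι.toAlgebra
  obtain ⟨f, hf⟩ : ∃ f : Module.Dual K L, f x ≠ 0 := by
    by_contra hcon
    push Not at hcon
    exact hx ((Module.forall_dual_apply_eq_zero_iff K x).1 hcon)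
  refine ⟨fun y => (f x)⁻¹ * f y, fun y z => by simp only [map_add, mul_add], fun a y => ?_,
    inv_mul_cancel₀ hf⟩
  have : y * ι a = a • y := by rw [Algebra.smul_def, mul_comm]; rfl
  simp only [this, map_smul, smul_eq_mul]
  ring

theorem Indep.up {n m : ℕ} {g : ℕ → K[X]} (h : Indep n m g) :
    Indep n m (fun c => (g c).map ι) := by
  intro S hS hc w hw c hcS
  by_contra hne
  obtain ⟨φ, h1, h2, h3⟩ := exists_funct ι (w c) hne
  have := h S hS hc (fun a => φ (w a)) (funct ι w φ h1 h2 hw) c hcS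
  simp only [h3] at this
  exact one_ne_zero this

theorem descend {S : Finset ℕ} {g : ℕ → K[X]} {c0 : ℕ} (b : ℕ → L)
    (h : (g c0).map ι = ∑ c ∈ S, C (b c) * (g c).map ι) (hc0 : c0 ∉ S) :
    ∃ β : ℕ → K, g c0 = ∑ c ∈ S, C (β c) * g c := by
  classical
  obtain ⟨φ, h1, h2, h3⟩ := exists_funct ι (1 : L) one_ne_zero
  have hn : φ (-1) = -1 := by
    have h4 := h1 1 (-1)
    have h0 : φ 0 = 0 := by simpa using h1 0 0
    rw [add_neg_cancel, h0, h3] at h4
    linear_combination -h4
  refine ⟨fun c => φ (b c), ?_⟩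
  have := funct ι (S := insert c0 S) (g := g) (fun c => if c = c0 then -1 else b c) φ h1 h2 (by
    rw [Finset.sum_insert hc0]
    have : ∑ x ∈ S, C (if x = c0 then -1 else b x) * (g x).map ι =
        ∑ x ∈ S, C (b x) * (g x).map ι := by
      refine Finset.sum_congr rfl fun x hx => ?_
      rw [if_neg]
      rintro rfl
      exact hc0 hx
    rw [this, ← h]
    simp)
  rw [Finset.sum_insert hc0] at this
  have h5 : ∑ x ∈ S, C (φ (if x = c0 then -1 else b x)) * g x = ∑ x ∈ S, C (φ (b x)) * g x := by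
    refine Finset.sum_congr rfl fun x hx => ?_
    rw [if_neg]
    rintro rfl
    exact hc0 hx
  rw [h5] at this
  simp only [if_true, hn, map_neg, map_one] at this
  linear_combination -this

end lin

/-- the factor for `S` and `c0` -/
noncomputable def Psi1 {K : Type} [Field K] (g : ℕ → K[X]) (S : Finset ℕ) (c0 : ℕ) (β : ℕ → K) :
    K[X][X] :=
  ∑ c ∈ S, C (C (β c / (B K S c).eval (c0 : K)) * g c) * B K[X] S c

theorem Psi1_coeff {K : Type} [Field K] [CharZero K] {n m : ℕ} {g : ℕ → K[X]} (h : Indep n m g)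
    (hm : n + 1 ≤ m)
    {S : Finset ℕ} (hSm : ∀ c ∈ S, c < m) (hS : S.card = n + 1) {c0 : ℕ} (hc0 : c0 ∉ S)
    (hc0m : c0 < m) {β : ℕ → K} (hβ : g c0 = ∑ c ∈ S, C (β c) * g c) :
    (Psi1 g S c0 β).coeff n ≠ 0 := by
  unfold Psi1
  rw [sum_coeff hS]
  intro h0
  have h1 := h S hSm hS _ h0
  apply h.ne_zero hm hc0m
  rw [hβ]
  refine Finset.sum_eq_zero fun c hc => ?_
  have h2 := h1 c hc
  rw [div_eq_zero_iff] at h2
  rcases h2 with h2 | h2
  · rw [h2]; simp
  · exact absurd h2 (B_eval_ne_zero fun h3 => hc0 (Finset.mem_of_mem_erase h3))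

theorem Psi1_map {K L : Type} [Field K] [Field L] (ι : K →+* L) (t : L) (g : ℕ → K[X])
    (S : Finset ℕ) (c0 : ℕ) (β : ℕ → K) :
    (Psi1 g S c0 β).map (eval₂RingHom ι t) =
      ∑ c ∈ S, C (ι (β c) / (B L S c).eval (c0 : L) * eval₂ ι t (g c)) * B L S c := by
  unfold Psi1
  rw [Polynomial.map_sum]
  refine Finset.sum_congr rfl fun c _ => ?_
  rw [Polynomial.map_mul, map_C, B_map, map_mul]
  have h1 : (eval₂RingHom ι t) (C (β c / (B K S c).eval (c0 : K))) =
      ι (β c) / (B L S c).eval (c0 : L) := by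
    rw [coe_eval₂RingHom, eval₂_C, map_div₀, ← B_map ι, ← map_natCast ι c0, eval_map,
      eval₂_at_apply]
  rw [h1]
  rfl

theorem main : Pool.Agent.Helper39.FX.S_FIN := by
  intro K _ _ n hn m g hm hg
  classical
  have hI : Indep n m g := hg
  have hg0 : ∀ c < m, g c ≠ 0 := fun c hc => hI.ne_zero (by omega) hc
  let P : Finset ℕ → ℕ → K[X][X] := fun S c0 =>
    if h : ∃ β : ℕ → K, g c0 = ∑ c ∈ S, C (β c) * g c then Psi1 g S c0 h.choose else 1
  refine ⟨∏ S ∈ (Finset.range m).powersetCard (n + 1), ∏ c0 ∈ Finset.range m \ S, P S c0, ?_, ?_⟩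
  · rw [Finset.prod_ne_zero_iff]
    intro S hS
    rw [Finset.prod_ne_zero_iff]
    intro c0 hc0
    rw [Finset.mem_powersetCard] at hS
    rw [Finset.mem_sdiff, Finset.mem_range] at hc0
    simp only [P]
    split_ifs with h
    · intro h0
      apply Psi1_coeff hI (by omega) (fun c hc => Finset.mem_range.1 (hS.1 hc)) hS.2 hc0.2 hc0.1
        h.choose_spec
      rw [h0]
      simp
    · exact one_ne_zero
  intro L _ ι T hT htr χ hχ hrel t ht
  have : CharZero L := charZero_of_injective_ringHom ι.injective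
  have hev : ∀ t ∈ T, ∀ c < m, eval₂ ι t (g c) ≠ 0 := fun t ht c hc => htr t ht _ (hg0 c hc)
  let J : L → Finset ℕ := fun t => (Finset.range m).filter fun c : ℕ => (χ t).eval (c : L) ≠ 0
  have hJ : ∀ t c, c ∈ J t ↔ c < m ∧ (χ t).eval (c : L) ≠ 0 := by
    intro t c
    simp [J]
  have hJcard : ∀ t ∈ T, m ≤ (J t).card + n := by
    intro t ht
    have h1 : ((Finset.range m).filter fun c : ℕ => ¬ (χ t).eval (c : L) ≠ 0).card ≤ n := by
      refine le_trans ?_ ((Multiset.toFinset_card_le (χ t).roots).trans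
        ((card_roots' _).trans (hχ t ht).2))
      apply Finset.card_le_card_of_injOn (fun c : ℕ => (c : L))
      · intro c hc
        simp only [ne_eq, not_not, Finset.coe_filter, Finset.mem_range, Set.mem_ofPred_eq] at hc
        simp only [Finset.mem_coe, Multiset.mem_toFinset]
        rw [mem_roots (hχ t ht).1.ne_zero]
        exact hc.2
      · exact fun a _ b _ h => Nat.cast_injective h
    have h2 := Finset.card_filter_add_card_filter_not (s := Finset.range m)
      (fun c : ℕ => (χ t).eval (c : L) ≠ 0)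
    rw [Finset.card_range] at h2
    simp only [J]
    omega
  -- infinitely many points with the same exceptional values
  obtain ⟨J0, hJ0⟩ : ∃ J0 : Finset ℕ, {t ∈ T | J t = J0}.Infinite := by
    by_contra hcon
    push Not at hcon
    apply hT
    have h1 : T ⊆ ⋃ J0 ∈ (Finset.range m).powerset, {t ∈ T | J t = J0} := by
      intro x hx
      simp only [Set.mem_iUnion]
      exact ⟨J x, Finset.mem_powerset.2 (Finset.filter_subset _ _), hx, rfl⟩
    refine Set.Finite.subset (Set.Finite.biUnion (Finset.finite_toSet _) fun J0 _ => ?_) h1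
    have := hcon J0
    simpa [Set.not_infinite] using this
  obtain ⟨t0, ht0, hJt0⟩ := hJ0.nonempty
  have hJ0m : ∀ c ∈ J0, c < m ∧ (χ t0).eval (c : L) ≠ 0 := by
    intro c hc
    rw [← hJt0] at hc
    exact (hJ _ _).1 hc
  set κ : ℕ → L := fun c => (χ t0).eval (c : L) / eval₂ ι t0 (g c) with hκ
  have hκ0 : ∀ c ∈ J0, κ c ≠ 0 := fun c hc =>
    div_ne_zero (hJ0m c hc).2 (hev t0 ht0 c (hJ0m c hc).1)
  have hinter : ∀ t ∈ T, n + 2 ≤ (J t ∩ J0).card := by
    intro t ht
    have h1 := Finset.card_union_add_card_inter (J t) J0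
    have h2 : (J t ∪ J0).card ≤ m := by
      have : J t ∪ J0 ⊆ Finset.range m := by
        refine Finset.union_subset (Finset.filter_subset _ _) ?_
        intro c hc
        exact Finset.mem_range.2 (hJ0m c hc).1
      simpa using Finset.card_le_card this
    have h3 := hJcard t ht
    have h4 := hJcard t0 ht0
    rw [hJt0] at h4
    omega
  have hmu : ∀ t ∈ T, ∃ μ : L, μ ≠ 0 ∧ ∀ c ∈ J t ∩ J0,
      (χ t).eval (c : L) = μ * κ c * eval₂ ι t (g c) := by
    intro t ht
    obtain ⟨c1, hc1⟩ : (J t ∩ J0).Nonempty := by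
      rw [← Finset.card_pos]
      have := hinter t ht
      omega
    rw [Finset.mem_inter] at hc1
    have a1 := (hJ _ _).1 hc1.1
    have a2 := hJ0m _ hc1.2
    have a3 := hev t ht c1 a1.1
    have a4 := hev t0 ht0 c1 a1.1
    refine ⟨(χ t).eval (c1 : L) / (κ c1 * eval₂ ι t (g c1)), div_ne_zero a1.2
      (mul_ne_zero (hκ0 _ hc1.2) a3), ?_⟩
    intro c hc
    rw [Finset.mem_inter] at hc
    have b1 := (hJ _ _).1 hc.1
    have b2 := hJ0m _ hc.2
    have b3 := hev t ht c b1.1
    have b4 := hev t0 ht0 c b1.1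
    have r := hrel t ht t0 ht0 c b1.1 c1 a1.1 b1.2 a1.2 b2.2 a2.2
    simp only [hκ]
    have a2' := a2.2
    field_simp
    linear_combination r
  -- the sets
  obtain ⟨C1, hC1, hC1c⟩ := Finset.exists_subset_card_eq (hinter t ht)
  obtain ⟨c0, hc0⟩ : C1.Nonempty := by
    rw [← Finset.card_pos]
    omega
  set S := C1.erase c0 with hSdef
  have hSc : S.card = n + 1 := by
    rw [hSdef, Finset.card_erase_of_mem hc0, hC1c]
    rfl
  have hc0S : c0 ∉ S := by simp [hSdef]
  have hSJ : ∀ c ∈ S, c ∈ J t ∩ J0 := fun c hc => hC1 (Finset.mem_of_mem_erase hc)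
  have hc0J : c0 ∈ J t ∩ J0 := hC1 hc0
  have hSm : ∀ c ∈ S, c < m := fun c hc => (hJ0m c (Finset.mem_inter.1 (hSJ c hc)).2).1
  have hc0m : c0 < m := (hJ0m c0 (Finset.mem_inter.1 hc0J).2).1
  have hκc0 := hκ0 c0 (Finset.mem_inter.1 hc0J).2
  have he : ∀ c, (B L S c).eval (c : L) ≠ 0 := fun c => B_eval_ne_zero (by simp)
  have hf : ∀ c, (B L S c).eval (c0 : L) ≠ 0 := fun c =>
    B_eval_ne_zero fun h3 => hc0S (Finset.mem_of_mem_erase h3)
  -- the relation
  have hpol : C (κ c0) * (g c0).map ι - ∑ c ∈ S, C (κ c * (B L S c).eval (c0 : L) /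
      (B L S c).eval (c : L)) * (g c).map ι = 0 := by
    apply Polynomial.eq_zero_of_infinite_isRoot
    refine hJ0.mono ?_
    rintro t' ⟨ht', hJt'⟩
    obtain ⟨μ, hμ0, hμ⟩ := hmu t' ht'
    rw [hJt', Finset.inter_self] at hμ
    have h1 := congrArg (fun Q => Q.eval (c0 : L)) (interp hSc (hχ t' ht').2)
    simp only [eval_finsetSum, eval_mul, eval_C] at h1
    rw [hμ c0 (Finset.mem_inter.1 hc0J).2] at h1
    have h2 : ∑ c ∈ S, (χ t').eval (c : L) / (B L S c).eval (c : L) * (B L S c).eval (c0 : L) =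
        μ * ∑ c ∈ S, κ c * (B L S c).eval (c0 : L) / (B L S c).eval (c : L) *
          eval₂ ι t' (g c) := by
      rw [Finset.mul_sum]
      refine Finset.sum_congr rfl fun c hc => ?_
      rw [hμ c (Finset.mem_inter.1 (hSJ c hc)).2]
      ring
    rw [h2] at h1
    have h3 : κ c0 * eval₂ ι t' (g c0) = ∑ c ∈ S, κ c * (B L S c).eval (c0 : L) /
        (B L S c).eval (c : L) * eval₂ ι t' (g c) := by
      apply mul_left_cancel₀ hμ0
      rw [← h1]
      ring
    simp only [Set.mem_ofPred_eq, IsRoot.def, eval_sub, eval_mul, eval_C, eval_finsetSum,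
      eval_map]
    rw [h3]
    ring
  have hpol' : (g c0).map ι = ∑ c ∈ S, C (κ c * (B L S c).eval (c0 : L) /
      ((B L S c).eval (c : L) * κ c0)) * (g c).map ι := by
    have h1 : C (κ c0)⁻¹ * (C (κ c0) * (g c0).map ι) = (g c0).map ι := by
      rw [← mul_assoc, ← C_mul, inv_mul_cancel₀ hκc0]
      simp
    rw [← h1, sub_eq_zero.1 hpol, Finset.mul_sum]
    refine Finset.sum_congr rfl fun c _ => ?_
    rw [← mul_assoc, ← C_mul]
    congr 2
    have := he c
    field_simp
  have hex : ∃ β : ℕ → K, g c0 = ∑ c ∈ S, C (β c) * g c := descend ι _ hpol' hc0S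
  set β := hex.choose with hβdef
  have hβ : g c0 = ∑ c ∈ S, C (β c) * g c := hex.choose_spec
  have hβL : ∀ c ∈ S, κ c * (B L S c).eval (c0 : L) / ((B L S c).eval (c : L) * κ c0) =
      ι (β c) := by
    intro c hc
    have h1 := (hI.up ι) S hSm hSc (fun c => κ c * (B L S c).eval (c0 : L) /
      ((B L S c).eval (c : L) * κ c0) - ι (β c)) (by
        simp only [map_sub, sub_mul, Finset.sum_sub_distrib]
        rw [← hpol', sub_eq_zero]
        conv_lhs => rw [hβ]
        rw [Polynomial.map_sum]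
        refine Finset.sum_congr rfl fun c _ => ?_
        rw [Polynomial.map_mul, map_C]) c hc
    exact sub_eq_zero.1 h1
  obtain ⟨μ, hμ0, hμ⟩ := hmu t ht
  have key : χ t = C (μ * κ c0) * (Psi1 g S c0 β).map (eval₂RingHom ι t) := by
    rw [Psi1_map, Finset.mul_sum]
    conv_lhs => rw [interp hSc (hχ t ht).2]
    refine Finset.sum_congr rfl fun c hc => ?_
    rw [← mul_assoc, ← C_mul, hμ c (hSJ c hc), ← hβL c hc]
    congr 2
    have := he c
    have := hf c
    field_simp
  have hne : μ * κ c0 ≠ 0 := mul_ne_zero hμ0 hκc0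
  refine ⟨le_antisymm (hχ t ht).2 ?_, ?_⟩
  · apply le_natDegree_of_ne_zero
    rw [key, coeff_C_mul, coeff_map]
    exact mul_ne_zero hne (htr t ht _ (Psi1_coeff hI (by omega) hSm hSc hc0S hc0m hβ))
  · rw [Polynomial.map_prod]
    refine dvd_trans ?_ (Finset.dvd_prod_of_mem _ (Finset.mem_powersetCard.2
      ⟨fun c hc => Finset.mem_range.2 (hSm c hc), hSc⟩))
    rw [Polynomial.map_prod]
    refine dvd_trans ?_ (Finset.dvd_prod_of_mem _ (Finset.mem_sdiff.2
      ⟨Finset.mem_range.2 hc0m, hc0S⟩))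
    have hP : P S c0 = Psi1 g S c0 β := by
      simp only [P]
      rw [dif_pos hex]
    rw [hP]
    refine ⟨C (μ * κ c0)⁻¹, ?_⟩
    rw [key, mul_right_comm, ← C_mul, mul_inv_cancel₀ hne]
    simp

end Pool.Agent.Helper77.FX.FIN
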